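import Pool.Agent.Q329.SC.Main

/-!
# GlobalECC has no constant-factor single-criteria approximation unless densest `k`-subgraph has one

The definitions used in the statement are in `Pool/Agent/Q329/SC/Defs.lean` and
`Pool/Agent/Q329/GE/Defs.lean`:

* `Inst`, `Inst.mistakes`, `Inst.code`, `Inst.solCode`: instances, mistakes, bit strings;
* `GlobalFeasible`: the feasible solutions of GlobalECC (the budget is respected exactly);
* `Approx Feas α A`: the algorithm `A` is a polynomial-time single-criteria `α`-approximation on the
  instances with exactly two colors;
* `DkSApprox β B`: the algorithm `B` is a polynomial-time `β`-approximation for densest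
  `k`-subgraph.

Proof. Let `G` be a graph and suppose that some `k` vertices contain `t` edges. The nodes of the
instance are the edges of `G`; every node has many loops of color 0, and the edges at a vertex of
`G` form a hyperedge of color 1. The budget is the number of edges minus `t`. So at least `t` nodes
have color 0 only, and the mistakes are the vertices of `G` that meet these nodes: the optimum is at
most `k`, and an approximate solution is a set of `c k` vertices with at least `t` edges. These
vertices are divided into blocks of `k / 2` vertices; the best pair of blocks has `t / (9 c ^ 2)`
edges. All numbers `t` are tried.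
-/

set_option autoImplicit false

namespace Pool.Agent.Results.MP_dc7e63_lc.GlobalNoConstantFactor

open Pool.Agent.Q329.SC

/-- (1) If GlobalECC, restricted to two colors, has a polynomial-time single-criteria
`α`-approximation, then the densest `k`-subgraph problem has a polynomial-time
`9 ⌈α⌉²`-approximation. (2) Hence, if densest `k`-subgraph has no polynomial-time constant-factor
approximation, then neither has GlobalECC, even with two colors. -/
theorem result :
    (∀ (α : ℝ) (A : List Bool → List Bool), Approx GlobalFeasible α A →
      ∃ B, DkSApprox (9 * (⌈α⌉₊ : ℝ) ^ 2) B) ∧
    ((∀ β : ℝ, ¬ ∃ B, DkSApprox β B) → ∀ α : ℝ, ¬ ∃ A, Approx GlobalFeasible α A) :=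
  ⟨fun _ _ h => dks_of_approx nice_global h (Nat.le_ceil _),
    fun h _ ⟨_, hA⟩ => h _ (dks_of_approx nice_global hA (Nat.le_ceil _))⟩

end Pool.Agent.Results.MP_dc7e63_lc.GlobalNoConstantFactor
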